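import Pool.Agent.D0H20.BK.Fin

/-!
# MP_cbe134_nt: the enveloping algebra acts freely on the large generators of the depth graded Lie algebra

The depth graded Lie algebra of motivic multiple zeta values consists of polynomials, the part of depth `r` of polynomials in
`r` variables, with the (linearized) Ihara bracket `{f, g} = f ∘ g - g ∘ f`. It contains the elements `f_b = x^(2b)`, `b ≥ 1`,
of depth one, dual to the zeta values `ζ(2b + 1)`. Let `L` be the Lie algebra generated by the `f_b`; its part `L_(r,n)` of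
depth `r` and weight `2 n + r` is spanned by the brackets `{f_(b_1), {f_(b_2), …, f_(b_r)}…}` with `b_1 + … + b_r = n`. The
products `f_(b_1) ∘ (f_(b_2) ∘ … ∘ f_(b_s))` with `b_1 + … + b_s = m` span the part `U_(s,m)` of the enveloping algebra of `L`
(in its realization by polynomials). The relations between these products are not known in depth `s ≥ 4`; in depth two they
come from the cusp forms, and the Broadhurst-Kreimer conjecture describes (with the exceptional generators in depth four) the
dimensions.

**Theorem.** Let `r ≥ 2`. Consider the brackets `{f_(b_1), {…, f_(b_r)}…}` with `b_1 + … + b_r = n` and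
`b_r > 2 (b_1 + … + b_(r-1))`.
1. The relations between them are exactly the relations between the products `f_(b_1) ∘ (… ∘ f_(b_(r-1)))`, one relation for
   every value of `b_1 + … + b_(r-1)`. In other words: `u ↦ ad(u) f_b` is injective on `U_(r-1,m)` for `b > 2 m`, and the
   images for the different `m < n / 3`, `b = n - m`, are independent.
2. So they span a space of dimension `∑_(m < n / 3) dim U_(r-1,m)`, a lower bound for `dim L_(r,n)`.
3. In particular `(r-1)! dim L_(r,n) ≥ binom(⌊(n-1)/3⌋, r-1)`.

The starting file GeneratorsInEveryDepth of this page has only superincreasing sequences (`b_k > b_1 + … + b_(k-1)` for all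
`k`) and `b_r ≥ n - n / (r + 1)`, no relations, and the bound
`2^(r(r-1)/2) (r-1)! dim L_(r,n) ≥ (2 ⌊n/(2r+2)⌋ + 3 - 2^(r+1))^(r-1)`, which is empty for `n < 2 (r+1)(2^r-1)`. Here there is
no condition on `b_1, …, b_(r-1)`, the condition on `b_r` does not depend on `r`, and the constant `2` in it is optimal: in
depth two the brackets with `b_2 > (2 - ε) b_1` are dependent for large `n`, because of the cusp forms.

Proof. Let `y_0, …, y_(r-1)` be the variables and `q` (zero in the end) a root. (a) Isolation: the bracket is a sum of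
`(x - z)^(2 b_r) R_(x,z)` over the pairs of points. Let `y_1, …, y_(r-1)` tend to one point `c` and develop; the three linear
forms `y_0 - c`, `c - q`, `y_0 - q` remain, and large powers of three forms are linearly independent over the polynomials of
small degree (this gives the constant `2`). So a relation implies a relation between the factors `R(w)` of
`(y_0 - q)^(2 b_r)`. (b) `R(w)` is the action of the word `w = b_1 … b_(r-1)` with a parent `y_0` of the first point. Let
`Φ(w)` be the product. A shuffle formula and a cyclic identity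
`Φ(w)(y_1 … y_s; q) = R(w)(y_0; y_1 … y_s; q) + Φ(w)(y_0 … y_(s-1); y_s) + ∑ Φ(w') R(w'')` show: if a combination of the `R(w)`
vanishes for `y_0 = 1`, `q = 0` then the combination of the `Φ(w)` is a polynomial, in `s + 1` points, which is periodic in
the first point, so it is constant in the first point, and it is invariant under cyclic shifts with an arbitrary new point,
so it is zero. (c) For the converse: a formula for the bracket as a sum over the chords of a polygon whose vertices are the
points `y_0, …, y_(r-1), q`, with the factors `R(w') R(w'')` for the two sides of a chord.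

The variables are numbered from the right: `y_0 = x_r`, …, `y_(r-1) = x_1`.
-/

set_option autoImplicit false

namespace Pool.Agent.Results.MP_cbe134_nt.FreeAdjointAction

open Finset

/-- the variable `y_j` is dropped -/
def omit' (j : ℕ) (y : ℕ → ℚ) : ℕ → ℚ := fun i => if i < j then y i else y (i + 1)

/-- The linearized Ihara action `f ∘ g` for `f = x^(2b)` and a polynomial `g` in `y_0, …, y_(s-1)`. -/
def circ (s b : ℕ) (g : (ℕ → ℚ) → ℚ) (y : ℕ → ℚ) : ℚ :=
  y s ^ (2 * b) * g y +
    ∑ j ∈ range s, (y j - y (j + 1)) ^ (2 * b) * (g (omit' j y) - g (omit' (j + 1) y))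

/-- The action `g ∘ f` for `f = x^(2b)` and a polynomial `g` of even degree in `y_0, …, y_(s-1)`. -/
def circ' (s b : ℕ) (g : (ℕ → ℚ) → ℚ) (y : ℕ → ℚ) : ℚ :=
  y 0 ^ (2 * b) * g (fun i => y (i + 1)) + y s ^ (2 * b) * g (fun i => y i - y s) +
    (-1) ^ s * y 0 ^ (2 * b) * g (fun i => y (s - i) - y 0)

/-- The iterated bracket `{f_(b_1), {f_(b_2), …, f_(b_r)}…}` of `f_b = x^(2b)`, `{f, g} = f ∘ g - g ∘ f`. -/
def bracket : List ℕ → (ℕ → ℚ) → ℚ
  | [], _ => 0
  | [b], y => y 0 ^ (2 * b)
  | b :: b' :: u, y => circ (b' :: u).length b (bracket (b' :: u)) y -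
      circ' (b' :: u).length b (bracket (b' :: u)) y

/-- The iterated product `f_(b_1) ∘ (f_(b_2) ∘ … ∘ f_(b_s))` of `f_b = x^(2b)`; the empty product is `1`. -/
def product : List ℕ → (ℕ → ℚ) → ℚ
  | [], _ => 1
  | b :: u, y => circ u.length b (product u) y

/-- `L_(r,n)`: the space spanned by the iterated brackets of depth `r` and weight `2 n + r` -/
def L (r n : ℕ) : Submodule ℚ ((ℕ → ℚ) → ℚ) :=
  Submodule.span ℚ {g | ∃ b : List ℕ, b.length = r ∧ b.sum = n ∧ (∀ x ∈ b, 1 ≤ x) ∧ g = bracket b}

/-- `U_(s,m)`: the space spanned by the iterated products of depth `s` and weight `2 m + s` -/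
def U (s m : ℕ) : Submodule ℚ ((ℕ → ℚ) → ℚ) :=
  Submodule.span ℚ {g | ∃ b : List ℕ, b.length = s ∧ b.sum = m ∧ (∀ x ∈ b, 1 ≤ x) ∧ g = product b}

/-- The space spanned by the iterated brackets of depth `r` and weight `2 n + r` with `b_r > 2 (b_1 + … + b_(r-1))`. -/
def LargeLast (r n : ℕ) : Submodule ℚ ((ℕ → ℚ) → ℚ) :=
  Submodule.span ℚ {g | ∃ (u : List ℕ) (b : ℕ), u.length + 1 = r ∧ u.sum + b = n ∧ (∀ x ∈ u, 1 ≤ x) ∧
    2 * u.sum < b ∧ g = bracket (u ++ [b])}

lemma circ_eq (s b : ℕ) (g : (ℕ → ℚ) → ℚ) (y : ℕ → ℚ) :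
    circ s b g y = Pool.Agent.D0H20.BK.ci s b g y := rfl

lemma circ'_eq (s b : ℕ) (g : (ℕ → ℚ) → ℚ) (y : ℕ → ℚ) :
    circ' s b g y = Pool.Agent.D0H20.BK.ci' s b g y := rfl

lemma bracket_eq : ∀ b : List ℕ, bracket b = Pool.Agent.D0H20.BK.bra b
  | [] => rfl
  | [b] => rfl
  | b :: b' :: u => by
      funext y
      unfold bracket Pool.Agent.D0H20.BK.bra
      rw [bracket_eq (b' :: u), circ_eq, circ'_eq]

lemma product_eq : ∀ b : List ℕ, product b = Pool.Agent.D0H20.BK.pro b
  | [] => rfl
  | b :: u => by
      funext y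
      unfold product Pool.Agent.D0H20.BK.pro
      rw [product_eq u, circ_eq]

lemma L_eq (r n : ℕ) : L r n = Pool.Agent.D0H20.BK.Lsp r n := by
  unfold L Pool.Agent.D0H20.BK.Lsp
  simp only [bracket_eq]

lemma U_eq (s m : ℕ) : U s m = Pool.Agent.D0H20.BK.Usp s m := by
  unfold U Pool.Agent.D0H20.BK.Usp
  simp only [product_eq]

lemma LargeLast_eq (r n : ℕ) : LargeLast r n = Pool.Agent.D0H20.BK.Nsp r n := by
  unfold LargeLast Pool.Agent.D0H20.BK.Nsp
  simp only [bracket_eq]

/-- **The enveloping algebra acts freely on the large generators.** Let `r ≥ 2`.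
(1) For all `n` and all combinations of sequences `u = (b_1, …, b_(r-1))` of positive integers with
`3 (b_1 + … + b_(r-1)) < n`, with `b_r = n - (b_1 + … + b_(r-1))`: the combination of the brackets
`{f_(b_1), {…, f_(b_r)}…}` is zero if and only if, for every `m`, the combination of the products
`f_(b_1) ∘ (… ∘ f_(b_(r-1)))` over the sequences with `b_1 + … + b_(r-1) = m` is zero.
(2) The brackets with `b_1 + … + b_r = n` and `b_r > 2 (b_1 + … + b_(r-1))` span a space of dimension
`∑_(m < n/3) dim U_(r-1,m)`, and this is at most `dim L_(r,n)`.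
(3) `binom(⌊(n-1)/3⌋, r-1) ≤ (r-1)! dim L_(r,n)`. -/
theorem result (r n : ℕ) (hr : 2 ≤ r) :
    (∀ (S : Finset (List ℕ)) (c : List ℕ → ℚ),
      (∀ u ∈ S, u.length + 1 = r ∧ (∀ x ∈ u, 1 ≤ x) ∧ 3 * u.sum < n) →
      ((∑ u ∈ S, c u • bracket (u ++ [n - u.sum]) = 0) ↔
        ∀ m, ∑ u ∈ S with u.sum = m, c u • product u = 0)) ∧
    Module.finrank ℚ (LargeLast r n) = ∑ m ∈ range n with 3 * m < n, Module.finrank ℚ (U (r - 1) m) ∧
    Module.finrank ℚ (LargeLast r n) ≤ Module.finrank ℚ (L r n) ∧
    ((n - 1) / 3).choose (r - 1) ≤ (r - 1).factorial * Module.finrank ℚ (L r n) := by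
  obtain ⟨s, rfl⟩ : ∃ s, r = s + 2 := ⟨r - 2, by omega⟩
  have hs : s + 2 - 1 = s + 1 := rfl
  rw [hs]
  refine ⟨?_, ?_, ?_, ?_⟩
  · intro S c hS
    have h := Pool.Agent.D0H20.BK.rel_iff s n S c (fun u hu =>
      ⟨by have := (hS u hu).1; omega, (hS u hu).2⟩)
    simpa only [bracket_eq, product_eq] using h
  · rw [LargeLast_eq, Pool.Agent.D0H20.BK.dims_eq]
    exact sum_congr rfl fun m _ => by rw [U_eq]
  · rw [LargeLast_eq, L_eq]
    exact Submodule.finrank_mono (Pool.Agent.D0H20.BK.N_le (s + 2) n)
  · rw [L_eq]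
    exact Pool.Agent.D0H20.BK.explicit s n

end Pool.Agent.Results.MP_cbe134_nt.FreeAdjointAction
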