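import Pool.Agent.D0H20.DL.Inh
import Pool.Agent.D0H20.DL.Gen

/-!
# MP_cbe134_nt: commuting elements, free pairs and free components of the depth graded Lie algebra

The depth graded Lie algebra of motivic multiple zeta values consists of polynomials. The part of depth `r` consists of
polynomials in `r` variables, which we consider as translation invariant polynomials in `r + 1` points `z_0, …, z_r`
(`g(x_1, …, x_r)` is `G(z_0, …, z_r) = g(z_(r-1) - z_r, …, z_0 - z_r)`). They are invariant under cyclic shifts of the points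
and satisfy the shuffle relations in `z_1, …, z_r` for fixed `z_0` (Goncharov, Brown: the linearized double shuffle
relations imply the dihedral symmetry). Let `𝔻_(r,D)` be the space of all such polynomials which are homogeneous of degree
`D`; the sum `𝔻` of these spaces contains the linearized double shuffle Lie algebra `ls` and so the depth graded motivic Lie
algebra (only one of the two families of shuffle relations and no parity condition is used). The bracket is the linearized
Ihara bracket `{G, H} = G ∘ H - H ∘ G`. Let `L ⊆ 𝔻` be the Lie algebra generated by the elements `f_b = (z_0 - z_1)^(2b)` of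
depth one, `b ≥ 1`, which are dual to the zeta values `ζ(2b + 1)`; `L_(r,n)` is the part of depth `r` and degree `2 n` (weight
`2 n + r`), and `U_(s,m)` is spanned by the products `f_(b_1) ∘ (f_(b_2) ∘ … ∘ (f_(b_s) ∘ 1))` with `b_1 + … + b_s = m` (the
enveloping algebra of `L`). The Broadhurst-Kreimer conjecture predicts the dimensions of these spaces (with the exceptional
generators in depth four).

**Theorem.**
1. *Commuting elements are proportional*: if `{G, H} = 0` for two elements `G ≠ 0`, `H` of the direct sum of the `𝔻_(r,D)`,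
   `1 ≤ r < D` (not necessarily homogeneous) then `H = c G`. So all centralizers are one-dimensional. For `L` the condition
   `r < D` always holds.
2. *Free pairs*: two nonzero elements of `𝔻_(r,D)` and `𝔻_(s,E)` of different depth `r ≠ s` generate a free Lie algebra, and
   the operators `G ∘`, `H ∘` generate a free associative algebra.
3. *Free components*: linearly independent elements `G_1, …, G_N` of one component `𝔻_(r,D)` (the same depth and weight)
   generate a free Lie algebra, and the operators `G_i ∘` generate a free associative algebra: all the products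
   `G_(i_1) ∘ (G_(i_2) ∘ …)` are linearly independent. So the Lie algebra generated by the component `𝔻_(r,D)` (or `ls_(r,D)`,
   with all exceptional generators, or `L_(r,n)`) is the free Lie algebra on this vector space.
4. `L` is a Lie algebra contained in `𝔻`; the Jacobi identity holds for arbitrary functions of `r + 1`, `s + 1`, `t + 1`
   points.
5. Hence for `N = dim L_(r,n)`: `dim L_((k+1)r,(k+1)n) ≥ 1^k + 2^k + … + (N-1)^k`,
   `dim U_(kr+s,kn+m) ≥ N^k dim L_(s,m)`, and the dimensions grow: `dim L_(s,m) ≤ dim L_(r+s,n+m)` if `L_(r,n) ≠ 0` and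
   `(r,n) ≠ (s,m)`.

Relations do exist between elements of the same depth and different weights (`{f_1, f_4} = 3 {f_2, f_3}` and the other relations
from cusp forms), so the hypotheses in 3. are natural. For `ls` instead of `𝔻` the theorem `LinearizedPairs` (helper84) shows that
any two linearly independent elements generate a free Lie algebra.

Proof. Let `z_0 → ∞`. The leading coefficient `u` of `G` in `z_0` is a polynomial in `z_1, …, z_r`, that is, a homogeneous element
of length `r` of the free associative algebra (tensor algebra) of `ℚ[z]`. In the Ihara bracket only one term contains `z_0` in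
both factors, and it shows that the leading coefficient of `{G, H}` is the commutator `v u - u v` of the leading coefficients;
here one uses that `G` and `H` really depend on `z_0`, by the cyclic symmetry. (a) Two elements of a free algebra which do not
commute generate a free algebra, and (b) two nonzero elements `u`, `v` of different length which satisfy the shuffle relations
do not commute: `v` would be `u^k w` and a sum over shuffles would be nonzero. This gives 2. (c) For elements of the same depth
and weight the leading coefficients can be made linearly independent: coefficients for different powers of `z_0` have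
different degrees. Linearly independent elements of the same length generate a free algebra. This gives 3. and 5., together
with the identity `{G, H} ∘ K = G ∘ (H ∘ K) - H ∘ (G ∘ K)`, which is proved for all functions `G`, `H`, `K` of points. (d) For
commuting elements of the same depth the leading coefficients are proportional; the next coefficients, the homogeneity and the
translation invariance show that the degrees in `z_0` agree, and one subtracts.
-/

set_option autoImplicit false

namespace Pool.Agent.Results.MP_cbe134_nt.FreeComponents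

open Finset

/-- The sum of `G` over all shuffles of two sequences of points. -/
def shuffle : List ℚ → List ℚ → (List ℚ → ℚ) → ℚ
  | [], zs, G => G zs
  | y :: ys, [], G => G (y :: ys)
  | y :: ys, z :: zs, G =>
      shuffle ys (z :: zs) (fun l => G (y :: l)) + shuffle (y :: ys) zs (fun l => G (z :: l))
termination_by ys zs => ys.length + zs.length

/-- `G ∈ 𝔻_(r,D)`: a polynomial in `r + 1` points, translation invariant, homogeneous of degree `D`, invariant under cyclic
shifts, with the shuffle relations for the points after the first one. (As a function of lists it is zero on the lists which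
do not have `r + 1` entries.) -/
structure IsElement (r D : ℕ) (G : List ℚ → ℚ) : Prop where
  support : ∀ z : List ℚ, z.length ≠ r + 1 → G z = 0
  polynomial : ∃ p : MvPolynomial ℕ ℚ, ∀ z : List ℚ, z.length = r + 1 → G z = MvPolynomial.eval (fun i => z.getD i 0) p
  translation : ∀ (a : ℚ) (z : List ℚ), G (z.map (fun x => x + a)) = G z
  homogeneous : ∀ (t : ℚ) (z : List ℚ), G (z.map (fun x => t * x)) = t ^ D * G z
  cyclic : ∀ (x : ℚ) (l : List ℚ), G (l ++ [x]) = G (x :: l)
  shuffles : ∀ (x : ℚ) (ys zs : List ℚ), ys ≠ [] → zs ≠ [] → ys.length + zs.length = r →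
    shuffle ys zs (fun l => G (x :: l)) = 0

/-- The linearized Ihara action `G ∘ H` for `G` of depth `r` and `H` of depth `s`:
`∑_(j=0)^s G(z_j, …, z_(j+r)) H(z_0, …, z_(j-1), z_(j+r), …, z_(r+s)) -
∑_(j=0)^(s-1) G(z_j, …, z_(j+r)) H(z_0, …, z_j, z_(j+r+1), …, z_(r+s))`. -/
def act (r s : ℕ) (G H : List ℚ → ℚ) (z : List ℚ) : ℚ :=
  ∑ j ∈ range (s + 1), G ((z.drop j).take (r + 1)) * H (z.take j ++ z.drop (j + r)) -
    ∑ j ∈ range s, G ((z.drop j).take (r + 1)) * H (z.take (j + 1) ++ z.drop (j + 1 + r))

/-- The linearized Ihara bracket `{G, H} = G ∘ H - H ∘ G`. -/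
def bracket (r s : ℕ) (G H : List ℚ → ℚ) (z : List ℚ) : ℚ := act r s G H z - act s r H G z

/-- The elements `f_b = (z_0 - z_1)^(2b)` of depth one, `b ≥ 1`. -/
def f (b : ℕ+) : List ℚ → ℚ
  | [x, y] => (x - y) ^ (2 * (b : ℕ))
  | _ => 0

/-- Bracket monomials in letters `i ∈ I`. -/
inductive Tree (I : Type)
  | leaf : I → Tree I
  | node : Tree I → Tree I → Tree I

/-- The sum of the numbers `len i` over the letters of a monomial. -/
def Tree.weight {I : Type} (len : I → ℕ) : Tree I → ℕ
  | .leaf i => len i
  | .node a b => a.weight len + b.weight len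

/-- The value of a bracket monomial for elements `g i` of depth `len i`. -/
def Tree.value {I : Type} (len : I → ℕ) (g : I → List ℚ → ℚ) : Tree I → List ℚ → ℚ
  | .leaf i => g i
  | .node a b => bracket (a.weight len) (b.weight len) (a.value len g) (b.value len g)

/-- The monomial in the free associative algebra, with the commutator as the bracket. -/
noncomputable def Tree.commutator {I : Type} : Tree I → FreeAlgebra ℚ I
  | .leaf i => FreeAlgebra.ι ℚ i
  | .node a b => a.commutator * b.commutator - b.commutator * a.commutator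

/-- The product `g_(i_1) ∘ (g_(i_2) ∘ … ∘ (g_(i_k) ∘ 1))` of a word, for elements `g i` of depth `len i`. -/
def word {I : Type} (len : I → ℕ) (g : I → List ℚ → ℚ) : List I → List ℚ → ℚ
  | [] => fun z => if z.length = 1 then 1 else 0
  | i :: w => act (len i) (w.map len).sum (g i) (word len g w)

/-- The operators `g_i ∘` generate a free associative algebra: the products of all words are linearly independent. -/
def FreeOperators {I : Type} (len : I → ℕ) (g : I → List ℚ → ℚ) : Prop :=
  LinearIndependent ℚ (word len g)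

/-- The elements `g_i` generate a free Lie algebra: bracket monomials are linearly independent whenever they are in the free
associative algebra. -/
def FreeLie {I : Type} (len : I → ℕ) (g : I → List ℚ → ℚ) : Prop :=
  ∀ S : Set (Tree I), LinearIndependent ℚ (fun T : S => T.1.commutator) →
    LinearIndependent ℚ (fun T : S => T.1.value len g)

/-- `L_(r,n)`: spanned by the bracket monomials in `f_b`, `b ≥ 1`, with `r` letters and the sum `n` of the indices. -/
def L (r n : ℕ) : Submodule ℚ (List ℚ → ℚ) :=
  Submodule.span ℚ {G | ∃ T : Tree ℕ+, T.weight (fun _ => 1) = r ∧ T.weight (fun b : ℕ+ => (b : ℕ)) = n ∧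
    G = T.value (fun _ => 1) f}

/-- `U_(s,m)`: spanned by the products of words in `f_b`, `b ≥ 1`, with `s` letters and the sum `m` of the indices. -/
def U (s m : ℕ) : Submodule ℚ (List ℚ → ℚ) :=
  Submodule.span ℚ {G | ∃ w : List ℕ+, w.length = s ∧ (w.map (fun b : ℕ+ => (b : ℕ))).sum = m ∧
    G = word (fun _ => 1) f w}

/-! ### comparison with the helper files -/

lemma shuffle_eq (n : ℕ) : ∀ (ys zs : List ℚ) (_ : ys.length + zs.length = n) (G : List ℚ → ℚ),
    shuffle ys zs G = Pool.Agent.D0H20.DL.shuf ys zs G := by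
  induction n using Nat.strong_induction_on with
  | _ n ih =>
  intro ys zs h G
  match ys, zs, h with
  | [], zs, _ => rw [shuffle, Pool.Agent.D0H20.DL.shuf_nil_left]
  | y :: ys, [], _ => rw [shuffle, Pool.Agent.D0H20.DL.shuf_nil_right]
  | y :: ys, z :: zs, h =>
    simp only [List.length_cons] at h
    rw [shuffle, Pool.Agent.D0H20.DL.shuf_cons_cons, ih (n - 1) (by omega) ys (z :: zs) (by simp; omega),
      ih (n - 1) (by omega) (y :: ys) zs (by simp; omega)]

lemma element_iff (r D : ℕ) (G : List ℚ → ℚ) : IsElement r D G ↔ Pool.Agent.D0H20.DL.Dih r D G := by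
  constructor
  · intro h
    exact ⟨h.support, h.polynomial, h.translation, h.homogeneous, h.cyclic, fun x ys zs h1 h2 h3 => by
      rw [← shuffle_eq _ ys zs rfl]
      exact h.shuffles x ys zs h1 h2 h3⟩
  · intro h
    exact ⟨h.supp, h.poly, h.trans, h.hom, h.cyc, fun x ys zs h1 h2 h3 => by
      rw [shuffle_eq _ ys zs rfl]
      exact h.shuf x ys zs h1 h2 h3⟩

lemma bracket_eq (r s : ℕ) (G H : List ℚ → ℚ) : bracket r s G H = Pool.Agent.D0H20.DL.ihara r s G H := rfl

/-- the same tree -/
def toT {I : Type} : Tree I → Pool.Agent.D0H20.DL.Tree I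
  | .leaf i => .leaf i
  | .node a b => .node (toT a) (toT b)

lemma weight_eq {I : Type} (len : I → ℕ) (T : Tree I) : T.weight len = Pool.Agent.D0H20.DL.tw len (toT T) := by
  induction T with
  | leaf i => rfl
  | node a b ha hb =>
    show a.weight len + b.weight len = _
    rw [ha, hb]
    rfl

lemma value_eq {I : Type} (len : I → ℕ) (g : I → List ℚ → ℚ) (T : Tree I) :
    T.value len g = Pool.Agent.D0H20.DL.tev len g (toT T) := by
  induction T with
  | leaf i => rfl
  | node a b ha hb =>
    show bracket (a.weight len) (b.weight len) (a.value len g) (b.value len g) = _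
    rw [ha, hb, weight_eq, weight_eq]
    rfl

lemma commutator_eq {I : Type} (T : Tree I) : T.commutator = Pool.Agent.D0H20.DL.com (toT T) := by
  induction T with
  | leaf i => rfl
  | node a b ha hb =>
    show a.commutator * b.commutator - b.commutator * a.commutator = _
    rw [ha, hb]
    rfl

lemma wl_eq {I : Type} (len : I → ℕ) (w : List I) : (w.map len).sum = Pool.Agent.D0H20.DL.wl len w := by
  induction w with
  | nil => rfl
  | cons i w ih => rw [List.map_cons, List.sum_cons, ih, Pool.Agent.D0H20.DL.wl_cons]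

lemma one_eq : (fun z : List ℚ => if z.length = 1 then (1 : ℚ) else 0) = Pool.Agent.D0H20.DL.one0 := by
  funext z
  match z with
  | [] => rfl
  | [x] => rfl
  | _ :: _ :: _ => simp [Pool.Agent.D0H20.DL.one0]

lemma word_eq {I : Type} (len : I → ℕ) (g : I → List ℚ → ℚ) (w : List I) :
    word len g w = Pool.Agent.D0H20.DL.wop len g 0 Pool.Agent.D0H20.DL.one0 w := by
  induction w with
  | nil => exact one_eq
  | cons i w ih =>
    show act (len i) (w.map len).sum (g i) (word len g w) = _
    rw [ih, wl_eq, Pool.Agent.D0H20.DL.wop_cons, add_zero]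
    rfl

lemma f_eq (b : ℕ+) : f b = Pool.Agent.D0H20.DL.fa b := by
  funext z
  match z with
  | [] => rfl
  | [x] => rfl
  | [x, y] => rfl
  | _ :: _ :: _ :: _ => rfl

lemma f_mem (b : ℕ+) : f b ∈ Pool.Agent.D0H20.DL.Ls 1 b := by
  rw [f_eq]
  exact Submodule.subset_span ⟨[(b : ℕ)], rfl, by simp, fun x hx => by
    rw [List.mem_singleton] at hx
    rw [hx]
    exact b.pos, rfl⟩

lemma exists_tree (u : List ℕ) (hu : u ≠ []) (h1 : ∀ x ∈ u, 1 ≤ x) : ∃ T : Tree ℕ+,
    T.weight (fun _ => 1) = u.length ∧ T.weight (fun b : ℕ+ => (b : ℕ)) = u.sum ∧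
    T.value (fun _ => 1) f = Pool.Agent.D0H20.DL.itb u := by
  induction u with
  | nil => exact absurd rfl hu
  | cons a u ih =>
    have ha : 0 < a := h1 a (by simp)
    obtain ⟨c, rfl⟩ : ∃ c : ℕ+, (c : ℕ) = a := ⟨⟨a, ha⟩, rfl⟩
    by_cases h : u = []
    · subst h
      refine ⟨.leaf c, rfl, by simp [Tree.weight], ?_⟩
      exact f_eq c
    · obtain ⟨T, e1, e2, e3⟩ := ih h (fun x hx => h1 x (by simp [hx]))
      refine ⟨.node (.leaf c) T, ?_, ?_, ?_⟩
      · show 1 + T.weight (fun _ => 1) = _
        rw [e1, List.length_cons, add_comm]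
      · show (c : ℕ) + T.weight (fun b : ℕ+ => (b : ℕ)) = _
        rw [e2, List.sum_cons]
      · show bracket 1 (T.weight (fun _ => 1)) (f c) (T.value (fun _ => 1) f) = _
        rw [e1, e3, f_eq, Pool.Agent.D0H20.DL.itb_cons (c : ℕ) u h]
        rfl

lemma L_eq (r n : ℕ) (hr : 1 ≤ r) : L r n = Pool.Agent.D0H20.DL.Ls r n := by
  apply le_antisymm
  · unfold L
    rw [Submodule.span_le]
    rintro G ⟨T, rfl, rfl, rfl⟩
    have h1 := (Pool.Agent.D0H20.DL.tev_mem (fun _ : ℕ+ => 1) (fun b : ℕ+ => (b : ℕ)) (fun _ => le_rfl) f f_mem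
      (toT T)).2
    rw [← value_eq, ← weight_eq, ← weight_eq] at h1
    exact h1
  · unfold Pool.Agent.D0H20.DL.Ls
    rw [Submodule.span_le]
    rintro G ⟨u, rfl, rfl, h1, rfl⟩
    obtain ⟨T, e1, e2, e3⟩ := exists_tree u (by intro h; rw [h] at hr; simp at hr) h1
    exact Submodule.subset_span ⟨T, e1, e2, e3.symm⟩

lemma word_prd (w : List ℕ+) : word (fun _ => 1) f w =
    Pool.Agent.D0H20.DL.prd (w.map (fun b : ℕ+ => (b : ℕ))) := by
  induction w with
  | nil => exact one_eq
  | cons b w ih =>
    show act 1 (w.map (fun _ => 1)).sum (f b) (word (fun _ => 1) f w) = _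
    rw [ih, f_eq, List.map_cons]
    show _ = Pool.Agent.D0H20.DL.act 1 (w.map (fun b : ℕ+ => (b : ℕ))).length (Pool.Agent.D0H20.DL.fa b) _
    rw [List.length_map]
    have h1 : (w.map (fun _ : ℕ+ => 1)).sum = w.length := by simp
    rw [h1]
    rfl

lemma U_eq (s m : ℕ) : U s m = Pool.Agent.D0H20.DL.Us s m := by
  unfold U Pool.Agent.D0H20.DL.Us
  congr 1
  ext G
  constructor
  · rintro ⟨w, rfl, rfl, rfl⟩
    refine ⟨w.map (fun b : ℕ+ => (b : ℕ)), by simp, rfl, ?_, word_prd w⟩
    intro x hx
    rw [List.mem_map] at hx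
    obtain ⟨b, _, rfl⟩ := hx
    exact b.pos
  · rintro ⟨b, h1, h2, h3, rfl⟩
    obtain ⟨w, rfl⟩ : ∃ w : List ℕ+, w.map (fun b : ℕ+ => (b : ℕ)) = b := by
      clear h1 h2
      induction b with
      | nil => exact ⟨[], rfl⟩
      | cons x b ih =>
        obtain ⟨w, hw⟩ := ih (fun y hy => h3 y (by simp [hy]))
        have hx : 0 < x := h3 x (by simp)
        obtain ⟨c, rfl⟩ : ∃ c : ℕ+, (c : ℕ) = x := ⟨⟨x, hx⟩, rfl⟩
        exact ⟨c :: w, by rw [List.map_cons, hw]⟩
    exact ⟨w, by simpa using h1, h2, (word_prd w).symm⟩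

lemma free_lie_of {I : Type} (len : I → ℕ) (g : I → List ℚ → ℚ)
    (h : ∀ S : Set (Tree I), LinearIndependent ℚ (fun T : S => Pool.Agent.D0H20.DL.com (toT T.1)) →
      LinearIndependent ℚ (fun T : S => Pool.Agent.D0H20.DL.tev len g (toT T.1))) : FreeLie len g := by
  intro S hS
  have h1 : (fun T : S => T.1.commutator) = fun T : S => Pool.Agent.D0H20.DL.com (toT T.1) :=
    funext fun T => commutator_eq T.1
  have h2 : (fun T : S => T.1.value len g) = fun T : S => Pool.Agent.D0H20.DL.tev len g (toT T.1) :=
    funext fun T => value_eq len g T.1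
  rw [h1] at hS
  rw [h2]
  exact h S hS

/-- **Commuting elements, free pairs and free components.**
(1) Two commuting elements `G ≠ 0`, `H` (with homogeneous parts `G_(r,D)`, `H_(r,D)` in `𝔻_(r,D)`, `1 ≤ r < D`) are
proportional.
(2) Two nonzero elements of different depth generate a free Lie algebra and free operators.
(3) Linearly independent elements of one space `𝔻_(r,D)` generate a free Lie algebra and free operators.
(4) `L_(r,n) ⊆ 𝔻_(r,2n)`, the bracket maps `L × L` to `L`, and the Jacobi identity holds (for all functions of `r + 1`, `s + 1`,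
`t + 1` points).
(5) Lower bounds for the dimensions of `L` and `U`. -/
theorem result :
    -- (1)
    (∀ G H : ℕ → ℕ → List ℚ → ℚ, {p : ℕ × ℕ | G p.1 p.2 ≠ 0}.Finite → {p : ℕ × ℕ | H p.1 p.2 ≠ 0}.Finite →
      (∀ r D, IsElement r D (G r D) ∧ IsElement r D (H r D)) →
      (∀ r D, G r D ≠ 0 ∨ H r D ≠ 0 → 1 ≤ r ∧ r < D) → (∃ r D, G r D ≠ 0) →
      (∀ R N, ∑ r ∈ range (R + 1), ∑ D ∈ range (N + 1),
        bracket r (R - r) (G r D) (H (R - r) (N - D)) = 0) →
      ∃ c : ℚ, ∀ r D, H r D = c • G r D) ∧
    -- (2)
    (∀ (len D : Bool → ℕ) (g : Bool → List ℚ → ℚ),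
      (∀ i, 1 ≤ len i ∧ 1 ≤ D i ∧ IsElement (len i) (D i) (g i) ∧ g i ≠ 0) → len true ≠ len false →
      FreeOperators len g ∧ FreeLie len g) ∧
    -- (3)
    (∀ (r D : ℕ) (I : Type) [Finite I] (g : I → List ℚ → ℚ), 1 ≤ r → 1 ≤ D → (∀ i, IsElement r D (g i)) →
      LinearIndependent ℚ g → FreeOperators (fun _ => r) g ∧ FreeLie (fun _ => r) g) ∧
    -- (4)
    (∀ r n : ℕ, 1 ≤ r → ∀ G ∈ L r n, IsElement r (2 * n) G) ∧
    (∀ r n s m : ℕ, 1 ≤ r → 1 ≤ s → ∀ G ∈ L r n, ∀ H ∈ L s m, bracket r s G H ∈ L (r + s) (n + m)) ∧
    (∀ (r s t : ℕ) (G H K : List ℚ → ℚ), 1 ≤ r → 1 ≤ s → 1 ≤ t → (∀ z : List ℚ, z.length ≠ r + 1 → G z = 0) →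
      (∀ z : List ℚ, z.length ≠ s + 1 → H z = 0) → (∀ z : List ℚ, z.length ≠ t + 1 → K z = 0) →
      bracket r (s + t) G (bracket s t H K) =
        bracket (r + s) t (bracket r s G H) K + bracket s (r + t) H (bracket r t G K)) ∧
    -- (5)
    (∀ r n k : ℕ, 1 ≤ r → ∑ c ∈ range (Module.finrank ℚ (L r n)), c ^ k ≤
      Module.finrank ℚ (L ((k + 1) * r) ((k + 1) * n))) ∧
    (∀ r n s m k : ℕ, 1 ≤ r → 1 ≤ s → Module.finrank ℚ (L r n) ^ k * Module.finrank ℚ (L s m) ≤
      Module.finrank ℚ (U (k * r + s) (k * n + m))) ∧
    (∀ r n s m : ℕ, 1 ≤ r → 1 ≤ s → L r n ≠ ⊥ → (r, n) ≠ (s, m) →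
      Module.finrank ℚ (L s m) ≤ Module.finrank ℚ (L (r + s) (n + m))) := by
  refine ⟨?_, ?_, ?_, ?_, ?_, ?_, ?_, ?_, ?_⟩
  · intro G H hGf hHf hel hpos h0 hc
    exact Pool.Agent.D0H20.DL.commute_inh
      ⟨hGf, fun r D => (element_iff r D _).1 (hel r D).1, fun r D h => hpos r D (Or.inl h)⟩
      ⟨hHf, fun r D => (element_iff r D _).1 (hel r D).2, fun r D h => hpos r D (Or.inr h)⟩ h0 hc
  · intro len D g hg hne
    have h1 : ∀ i, ∃ z, g i z ≠ 0 := fun i => Function.ne_iff.1 (hg i).2.2.2
    constructor
    · have h2 := Pool.Agent.D0H20.DL.words_pair len D (fun i => (hg i).1) (fun i => (hg i).2.1) g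
        (fun i => (element_iff _ _ _).1 (hg i).2.2.1) h1 hne
      have h3 : word len g = fun w => Pool.Agent.D0H20.DL.wop len g 0 Pool.Agent.D0H20.DL.one0 w :=
        funext fun w => word_eq len g w
      unfold FreeOperators
      rw [h3]
      exact h2
    · apply free_lie_of
      intro S hS
      have h2 := Pool.Agent.D0H20.DL.free_core_pair len D (fun i => (hg i).1) (fun i => (hg i).2.1) g
        (fun i => (element_iff _ _ _).1 (hg i).2.2.1) h1 hne (fun T : S => toT T.1) hS
      exact h2
  · intro r D I _ g hr hD hg hind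
    have : Fintype I := Fintype.ofFinite I
    have h2 := Pool.Agent.D0H20.DL.words_component hr hD g (fun i => (element_iff _ _ _).1 (hg i)) hind
    have h3 : word (fun _ => r) g = fun w => Pool.Agent.D0H20.DL.wop (fun _ => r) g 0 Pool.Agent.D0H20.DL.one0 w :=
      funext fun w => word_eq _ g w
    constructor
    · unfold FreeOperators
      rw [h3]
      exact h2
    · apply free_lie_of
      intro S hS
      exact Pool.Agent.D0H20.DL.lie_of_words' (fun _ => r) (fun _ => hr) g
        (fun i => ((element_iff _ _ _).1 (hg i)).supp) h2 (fun T : S => toT T.1)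
        (Pool.Agent.D0H20.DL.cf_ind (fun T : S => toT T.1) hS)
  · intro r n hr G hG
    rw [L_eq r n hr] at hG
    rw [element_iff]
    exact Pool.Agent.D0H20.DL.Ls_le r n hr hG
  · intro r n s m hr hs G hG H hH
    rw [L_eq r n hr] at hG
    rw [L_eq s m hs] at hH
    rw [L_eq (r + s) (n + m) (by omega)]
    exact Pool.Agent.D0H20.DL.Ls_closed hr hs hG hH
  · intro r s t G H K hr hs ht hG hH hK
    exact Pool.Agent.D0H20.DL.jacobi_all hr hs ht hG hH hK
  · intro r n k hr
    rw [L_eq r n hr, L_eq ((k + 1) * r) ((k + 1) * n) (by nlinarith)]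
    exact Pool.Agent.D0H20.DL.dim_L r n k hr
  · intro r n s m k hr hs
    rw [L_eq r n hr, L_eq s m hs, U_eq]
    exact Pool.Agent.D0H20.DL.dim_U r n s m k hr hs
  · intro r n s m hr hs h1 h2
    rw [L_eq r n hr] at h1
    rw [L_eq s m hs, L_eq (r + s) (n + m) (by omega)]
    exact Pool.Agent.D0H20.DL.dim_mono hr hs h1 h2

end Pool.Agent.Results.MP_cbe134_nt.FreeComponents
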