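import Pool.Agent.D0H84.LS.Final

/-!
# MP_cbe134_nt: free subalgebras of the linearized double shuffle Lie algebra

The depth graded Lie algebra of motivic multiple zeta values, whose enveloping algebra the Broadhurst-Kreimer
formula describes, is contained in the linearized double shuffle Lie algebra `ls` (Brown). Neither is free: in
weight 12 one has `{σ₃, σ₉} = 3 {σ₅, σ₇}`, a relation coming from the first cusp form.

Here `ls` consists of the `ψ ∈ Lie[x₀, x₁]` without terms in `x₀, x₁, x₀x₁` whose words ending in `x₁`, read in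
the letters `y_{k+1} = x₀^k x₁`, form a primitive element for the coproduct with all `y_k` primitive (`IsLS`; the
parity condition in depth one of Brown's definition is not needed, the space here is a little larger). The depth
is the number of letters `x₁`.

**Theorem.** (1) Any two linearly independent elements of `ls` (of any weights and depths, homogeneous or not)
generate, under the Ihara bracket, a free Lie algebra of rank two. So a relation in the depth graded Lie algebra
always involves at least three elements, and commuting elements are proportional.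
(2) Any `n` linearly independent elements of `ls` of one weight with all depths between `r` and `2 r - 1`
generate a free Lie algebra of rank `n`: every basis of the elements of `ls` of weight `w` and depth in
`[r, 2r)` (in particular of `ls` in one weight and one depth, with all exceptional generators) is free.
(3) The same holds for elements of different weights, independent modulo depth `> R`, `R < 2r`, if each of the
weights is greater than `R` times the number of the weights.

The method (leading coefficients for many trailing letters `x₀`) is that of the corresponding theorems for the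
(filtered) Lie algebra `dm` in `MP_ec2393_nt`; in the filtered algebra relations of the graded one need not hold,
so that those do not give statements on `ls`.
-/

set_option autoImplicit false

namespace Pool.Agent.Results.MP_cbe134_nt.LinearizedPairs

open Pool.Agent.H777R4.DM Pool.Agent.D0H84.LS

attribute [local instance 100] LieRing.ofAssociativeRing

/-- **Free subalgebras of the linearized double shuffle Lie algebra** `ls`.
(1) If `ψ₁, ψ₂ ∈ ls` are linearly independent, then there is an injective linear map `φ` on `ℚ⟨x₀, x₁⟩` with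
`φ x₀ = ψ₁`, `φ x₁ = ψ₂` that carries the Lie bracket of the free Lie algebra `Lie[x₀, x₁]` to the Ihara bracket.
(2) If `ψ₁, …, ψₙ ∈ ls` are linearly independent and all their words have length `w` and between `r` and
`2 r - 1` letters `x₁`, then there is such a map on `ℚ⟨X₁, …, Xₙ⟩` with `φ Xᵢ = ψᵢ`.
(3) More generally let `1 ≤ r`, `R < 2r`, and let `W` be a finite set of weights `w` with `|W| R < w`. Let
`ψ₁, …, ψₙ ∈ ls` be homogeneous of weights in `W`, of depth `≥ r`, such that no nonzero linear combination has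
depth `> R`. Then there is such a map with `φ Xᵢ = ψᵢ`. -/
theorem result :
    (∀ ψ₁ ψ₂ : A, IsLS ψ₁ → IsLS ψ₂ → LinearIndependent ℚ ![ψ₁, ψ₂] →
      ∃ φ : A →ₗ[ℚ] A, Function.Injective φ ∧ φ (x 0) = ψ₁ ∧ φ (x 1) = ψ₂ ∧
        ∀ P ∈ LieX, ∀ Q ∈ LieX, φ (P * Q - Q * P) = ihara (φ P) (φ Q)) ∧
    (∀ (n r w : ℕ) (ψ : Fin n → A), 1 ≤ r → (∀ i, IsLS (ψ i)) →
      (∀ i u, co (ψ i) u ≠ 0 → u.length = w ∧ r ≤ u.count 1 ∧ u.count 1 < 2 * r) →
      LinearIndependent ℚ ψ →
      ∃ φ : Al (Fin n) →ₗ[ℚ] A, Function.Injective φ ∧ (∀ i, φ (wd [i]) = ψ i) ∧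
        ∀ P ∈ LieN n, ∀ Q ∈ LieN n, φ (P * Q - Q * P) = ihara (φ P) (φ Q)) ∧
    (∀ (n r R : ℕ) (W : Finset ℕ) (ψ : Fin n → A) (wt : Fin n → ℕ), 1 ≤ r → R < 2 * r →
      (∀ w ∈ W, W.card * R < w) → (∀ i, wt i ∈ W) → (∀ i, IsLS (ψ i)) →
      (∀ i u, co (ψ i) u ≠ 0 → u.length = wt i ∧ r ≤ u.count 1) →
      (∀ c : Fin n → ℚ, (∀ u, u.count 1 ≤ R → co (∑ i, c i • ψ i) u = 0) → c = 0) →
      ∃ φ : Al (Fin n) →ₗ[ℚ] A, Function.Injective φ ∧ (∀ i, φ (wd [i]) = ψ i) ∧
        ∀ P ∈ LieN n, ∀ Q ∈ LieN n, φ (P * Q - Q * P) = ihara (φ P) (φ Q)) := by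
  refine ⟨?_, ?_, ?_⟩
  · intro ψ₁ ψ₂ h₁ h₂ hli
    exact ⟨Phi ψ₁ ψ₂, two lp_ls h₁ h₂ (LinearIndependent.pair_iff.mp hli), phi_x0 ψ₁ ψ₂, phi_x1 ψ₁ ψ₂,
      fun P hP Q hQ => phi_lie ψ₁ ψ₂ P Q hP hQ⟩
  · intro n r w ψ hr hls hψ hind
    exact ⟨PhiN ψ, oneWeight lp_ls hr isLS_zero hls hψ hind,
      (Pool.Agent.H358R3.DM.taskFinalN n ψ).1, (Pool.Agent.H358R3.DM.taskFinalN n ψ).2⟩
  · intro n r R W ψ wt hr hR hW hwt hls hψ hind
    exact ⟨PhiN ψ, many lp_ls hr hR hW hwt hls isLS_zero (fun i u hu => (hψ i u hu).1)
        (fun i u hu => (hψ i u hu).2) hind,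
      (Pool.Agent.H358R3.DM.taskFinalN n ψ).1, (Pool.Agent.H358R3.DM.taskFinalN n ψ).2⟩

end Pool.Agent.Results.MP_cbe134_nt.LinearizedPairs
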