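import Pool.Agent.D0H7.BK.Gen2

/-!
# MP_cbe134_nt: free generators and the growth in every depth, uniformly in the depth

Let `A = ℚ⟨x₀, x₁⟩`, let `Lie[x₀, x₁] ⊆ A` be the free Lie algebra and `{f, g} = [f, g] + D_f g - D_g f` the Ihara bracket
(`D_f x₀ = 0`, `D_f x₁ = [x₁, f]`). The weight of a word is its length and the depth is the number of its letters `x₁`. The
motivic Lie algebra, the double shuffle Lie algebra and the Grothendieck-Teichmüller Lie algebra are closed under the Ihara
bracket, and they contain for every `b ≥ 1` an element `ψ_b` of weight `2 b + 1` whose coefficient at `x₀^(2b) x₁` is not zero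
(so `ψ_b = c (ad x₀)^(2b) x₁` modulo depth two, `c ≠ 0`). In the depth graded Lie algebra the `(ad x₀)^(2b) x₁` satisfy the
relations given by the period polynomials of the cusp forms, the first one between the weights `3, 5, 7, 9`. The
Broadhurst-Kreimer conjecture says how many elements remain in every depth.

**Theorem.**
1. Any `k` elements `ψ_(b_1), …, ψ_(b_k)` with distinct weights `2 b_i + 1 ≥ k` freely generate a free Lie algebra, and the
   depth filtration of this Lie algebra (and of its enveloping algebra) is the filtration by the degree in the generators; so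
   it remains free after passing to the depth graded Lie algebra. (For `k = 4` the bound is optimal: weights `3, 5, 7, 9`.)
2. Let `s(b)` be the sum of the digits of `2 b` in base `p`, `p` a prime. The `ψ_b` with `s(b) = j` freely generate a free Lie
   algebra `𝔣_j`, also depth graded; for instance all `b` with exactly `j` binary digits `1`, or, for `p = 3` and `j = 2`,
   `b = 1, 2, 3, 5, 6, 9, 14, …`. Moreover the products `ψ_(b_1) ∘ (ψ_(b_2) ∘ …)` for all words with
   `s(b_1) ≤ s(b_2) ≤ …` are linearly independent, also modulo larger depth: the map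
   `U(𝔣_1) ⊗ U(𝔣_2) ⊗ U(𝔣_3) ⊗ ⋯ → U` is injective. So the sum of the free Lie algebras `𝔣_1, 𝔣_2, …` is direct, and every
   `ψ_b` is a generator of one of them. The function `s` can be replaced by any function `κ` such that
   `κ(b') < κ(b)` whenever `p` does not divide `binom(2 b, 2 b')`, `b' ≠ b`.
3. Let `𝔤` be closed under the Ihara bracket and contain such elements `ψ_b` for all `b ≥ 1`, and let `gr^r 𝔤_N` be the
   quotient of the elements of weight `N` and depth `≥ r` by those of depth `≥ r + 1`. For all `r ≥ 2` and all `n`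
   `r dim gr^r 𝔤_(2n+r) ≥ ⌊(n + r - 1) / (2 r)⌋ ^ (r - 1)`,
   and `r dim gr^r 𝔤_(2n+r)` is at least the number of the sequences `c_1, …, c_r` of integers with `M ≤ c_i < 3 M` and
   `c_1 + … + c_r = n - 1`, for every `M ≥ 1`.

There are `binom(n - 1, r - 1) ≤ (e (n - 1) / (r - 1)) ^ (r - 1)` brackets of the `ψ_b` of depth `r` and weight `2 n + r`, so for
the Lie algebra generated by the `ψ_b` the bound in (3) is sharp up to a factor `C^r`, uniformly in the depth `r` and the
weight.

Proof. (1) In the ring `ℚ[y_0, …, y_(r-1)]` modulo the `(y_j - y_(j+1)) ^ (2 M + 1)` every product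
`f_(b_1) ∘ (f_(b_2) ∘ … ∘ f_(b_r))` with all `b_i ≥ M` is equal to its first monomial
`y_(r-1)^(2 b_1) ⋯ y_0^(2 b_r)`, and these monomials are linearly independent when `b_1, …, b_r` run through a set of at most
`2 M + 1` integers. (2) Modulo `p` the matrix of the coefficients of these products at the monomials
`x_1^(2 v_1) ⋯ x_r^(2 v_r)`, with `κ(b_1) ≤ κ(b_2) ≤ …` and `κ(v_1) ≤ κ(v_2) ≤ …`, is triangular for the lexicographic order
of the sequences `κ(v_1), κ(v_2), …`, with identity blocks on the diagonal. (3) Take the weights `2 b + 1` with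
`M ≤ b ≤ 3 M`, there are `2 M + 1` of them, and count brackets whose last letter is the largest one.
-/

set_option autoImplicit false

namespace Pool.Agent.Results.MP_cbe134_nt.UniformGrowth

open Pool.Agent.H777R4.DM

attribute [local instance 100] LieRing.ofAssociativeRing

/-- Injectivity on the words in `Ω`, in the weights `2 b i + 1`, compatible with the depth. Whenever `ψ i ∈ Lie[x₀, x₁]` is
homogeneous of weight `2 b i + 1` with a nonzero coefficient at `x₀^(2 b i) x₁`, the linear map `φ` on `ℚ⟨X₁, …, X_k⟩` with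
`φ 1 = 1` and `φ (X_i P) = ψ_i φ(P) + D_(ψ_i) (φ P)` (so `φ X_i = ψ_i`; the map from the enveloping algebra of the free Lie
algebra) carries the bracket `P Q - Q P` of the free Lie algebra to the Ihara bracket, it is injective on the combinations `P`
of words in `Ω`, and for such `P`: if the words of `P` have at least `r` letters and not all the coefficients of `P` at words
with `r` letters vanish, then not all the coefficients of `φ P` at words with exactly `r` letters `x₁` vanish. -/
def InjectiveInDepth {k : ℕ} (b : Fin k → ℕ) (Ω : Set (List (Fin k))) : Prop :=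
  ∀ ψ : Fin k → A, (∀ i, ψ i ∈ LieX) → (∀ i u, co (ψ i) u ≠ 0 → u.length = 2 * b i + 1) →
    (∀ i, co (ψ i) (List.replicate (2 * b i) 0 ++ [1]) ≠ 0) →
    ∃ φ : Al (Fin k) →ₗ[ℚ] A, φ 1 = 1 ∧ (∀ i P, φ (wd [i] * P) = ψ i * φ P + der (ψ i) (φ P)) ∧
      (∀ P ∈ LieN k, ∀ Q ∈ LieN k, φ (P * Q - Q * P) = ihara (φ P) (φ Q)) ∧
      ∀ P : Al (Fin k), (∀ W, co P W ≠ 0 → W ∈ Ω) → (φ P = 0 → P = 0) ∧
        ∀ r : ℕ, (∀ W : List (Fin k), W.length < r → co P W = 0) →
          (∀ u : List (Fin 2), u.count 1 = r → co (φ P) u = 0) → ∀ W : List (Fin k), W.length = r → co P W = 0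

/-- The elements of `g` of weight `N` and depth `≥ r`. -/
def Fil (g : Submodule ℚ A) (r N : ℕ) : Submodule ℚ A where
  carrier := {P | P ∈ g ∧ ∀ u, co P u ≠ 0 → u.length = N ∧ r ≤ u.count 1}
  add_mem' := (Pool.Agent.D0H7.BK.Fil g r N).add_mem'
  zero_mem' := (Pool.Agent.D0H7.BK.Fil g r N).zero_mem'
  smul_mem' := (Pool.Agent.D0H7.BK.Fil g r N).smul_mem'

/-- The dimension of the part of weight `N` and depth `r` of the depth graded space of `g`. -/
noncomputable def grDim (g : Submodule ℚ A) (r N : ℕ) : ℕ :=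
  Module.finrank ℚ (Fil g r N ⧸ (Fil g (r + 1) N).submoduleOf (Fil g r N))

lemma inj_of_ind {k : ℕ} (b : Fin k → ℕ) (hb : ∀ i, 1 ≤ b i) (hinj : Function.Injective b) (Ω : Set (List (Fin k)))
    {Ω' : Set (List ℕ)} (hind : Pool.Agent.D0H7.BK.IndW Ω') (hΩ : ∀ W ∈ Ω, W.map b ∈ Ω') : InjectiveInDepth b Ω := by
  intro ψ hL hhom hne
  refine ⟨PhiN ψ, ?_, fun i P => ?_, (Pool.Agent.H358R3.DM.taskFinalN k ψ).2, fun P hP => ⟨fun h0 => ?_, fun r h1 h2 => ?_⟩⟩
  · rw [Pool.Agent.H358R3.DM.PhiN_eq, map_one (Pool.Agent.H358R3.DM.SN ψ)]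
    rfl
  · rw [Pool.Agent.H358R3.DM.PhiN_eq, map_mul, Pool.Agent.H358R3.DM.SN_wd]
    rfl
  · exact Pool.Agent.D0H7.BK.injW ψ b hb hL hhom hinj hind hne P (fun W hW => hΩ W (hP W hW)) h0
  · exact Pool.Agent.D0H7.BK.strictW ψ b hb hL hhom hinj hind hne P r (fun W hW => hΩ W (hP W hW)) h1
      (Pool.Agent.D0H7.BK.count_wordX h2)

/-- (1) `k` weights `≥ k`. (2) The words along which a rank function increases weakly. (3) The case of the sum of the digits;
equal sums of digits. (4) The growth in every depth. -/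
theorem result :
    (∀ (k : ℕ) (b : Fin k → ℕ), Function.Injective b → (∀ i, 1 ≤ b i ∧ k ≤ 2 * b i + 1) →
      InjectiveInDepth b Set.univ) ∧
    (∀ (p k : ℕ) (b κ : Fin k → ℕ), p.Prime → Function.Injective b → (∀ i, 1 ≤ b i) →
      (∀ i j, i ≠ j → ¬ p ∣ (2 * b i).choose (2 * b j) → κ j < κ i) →
      InjectiveInDepth b {W | W.Pairwise fun i j => κ i ≤ κ j}) ∧
    (∀ (p k : ℕ) (b : Fin k → ℕ), p.Prime → Function.Injective b → (∀ i, 1 ≤ b i) →
      InjectiveInDepth b {W | W.Pairwise fun i j => (Nat.digits p (2 * b i)).sum ≤ (Nat.digits p (2 * b j)).sum} ∧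
      ((∀ i j, (Nat.digits p (2 * b i)).sum = (Nat.digits p (2 * b j)).sum) → InjectiveInDepth b Set.univ)) ∧
    ∀ g : Submodule ℚ A, (∀ P ∈ g, ∀ Q ∈ g, ihara P Q ∈ g) →
      (∀ b : ℕ, 1 ≤ b → ∃ f ∈ g, f ∈ LieX ∧ (∀ u, co f u ≠ 0 → u.length = 2 * b + 1) ∧
        co f (List.replicate (2 * b) 0 ++ [1]) ≠ 0) →
      (∀ r n : ℕ, 2 ≤ r → ((n + r - 1) / (2 * r)) ^ (r - 1) ≤ r * grDim g r (2 * n + r)) ∧
      ∀ r n M : ℕ, 1 ≤ r → 1 ≤ M →
        ((Finset.univ : Finset (Fin r → Fin (2 * M))).filter fun c => ∑ i, (M + (c i : ℕ)) + 1 = n).card ≤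
          r * grDim g r (2 * n + r) := by
  have key : ∀ (p k : ℕ) (b κ : Fin k → ℕ), p.Prime → Function.Injective b → (∀ i, 1 ≤ b i) →
      (∀ i j, i ≠ j → ¬ p ∣ (2 * b i).choose (2 * b j) → κ j < κ i) →
      InjectiveInDepth b {W | W.Pairwise fun i j => κ i ≤ κ j} := by
    intro p k b κ hp hinj hb hκ
    have he : ∀ i, Function.extend b κ 0 (b i) = κ i := fun i => hinj.extend_apply κ 0 i
    refine inj_of_ind b hb hinj _ (Pool.Agent.D0H7.BK.indW_up hp (B := Set.range b) (κ := Function.extend b κ 0) ?_) ?_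
    · rintro _ ⟨i, rfl⟩ _ ⟨j, rfl⟩ hne hnd
      rw [he, he]
      exact hκ i j (fun h => hne (by rw [h])) hnd
    · intro W hW
      refine ⟨fun x hx => ?_, ?_⟩
      · rw [List.mem_map] at hx
        obtain ⟨i, _, rfl⟩ := hx
        exact ⟨i, rfl⟩
      · show (W.map b).Pairwise fun x y => Function.extend b κ 0 x ≤ Function.extend b κ 0 y
        rw [List.pairwise_map]
        refine List.Pairwise.imp ?_ hW
        intro i j hij
        rw [he, he]
        exact hij
  have keyd : ∀ (p k : ℕ) (b : Fin k → ℕ), p.Prime → Function.Injective b → (∀ i, 1 ≤ b i) →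
      InjectiveInDepth b {W | W.Pairwise fun i j => (Nat.digits p (2 * b i)).sum ≤ (Nat.digits p (2 * b j)).sum} := by
    intro p k b hp hinj hb
    refine key p k b (fun i => (Nat.digits p (2 * b i)).sum) hp hinj hb fun i j hij hnd => ?_
    exact Pool.Agent.D0H7.BK.rk_digits hp (Set.range b) (b i) ⟨i, rfl⟩ (b j) ⟨j, rfl⟩
      (fun h => hij (hinj h).symm) hnd
  refine ⟨?_, key, fun p k b hp hinj hb => ⟨keyd p k b hp hinj hb, fun hdig => ?_⟩, ?_⟩
  · intro k b hinj hb
    classical
    refine inj_of_ind b (fun i => (hb i).1) hinj _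
      (Pool.Agent.D0H7.BK.indW_few (k / 2) (Finset.univ.image b)
        (Finset.card_image_le.trans (by rw [Finset.card_univ, Fintype.card_fin]; omega)) (by
        intro x hx
        rw [Finset.mem_image] at hx
        obtain ⟨i, _, rfl⟩ := hx
        have := (hb i).2
        omega)) ?_
    intro W _ x hx
    rw [List.mem_map] at hx
    obtain ⟨i, _, rfl⟩ := hx
    exact Finset.mem_image_of_mem _ (Finset.mem_univ i)
  · have h := keyd p k b hp hinj hb
    have h2 : {W : List (Fin k) | W.Pairwise fun i j => (Nat.digits p (2 * b i)).sum ≤ (Nat.digits p (2 * b j)).sum} =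
        Set.univ := by
      ext W
      simp only [Set.mem_ofPred_eq, Set.mem_univ, iff_true]
      exact List.pairwise_of_forall fun i j => (hdig i j).le
    rwa [h2] at h
  · intro g hg h
    refine ⟨fun r n hr => Pool.Agent.D0H7.BK.gr_closed g hg h r n hr, fun r n M hr hM => ?_⟩
    obtain ⟨d, rfl⟩ : ∃ d, r = d + 1 := ⟨r - 1, by omega⟩
    exact Pool.Agent.D0H7.BK.gr_count g hg h M d n hM

end Pool.Agent.Results.MP_cbe134_nt.UniformGrowth
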